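import Mathlib
import Pool.Agent.Q7.RL.Dlg

/-!
# Central values of Artin twists of elliptic curves and the periods of totally real fields

`E` is an elliptic curve over a number field `K` (for example `K = ℚ`) with an integral equation `W`
(`IsModel E W`), and `M/K` is a Galois extension with group `M ≃ₐ[K] M`, ANY finite group.
`Irr G` is the set of irreducible complex characters of the finite group `G`.

The L-functions are real ones. `Pool.Agent.Q92.RT.twistedL M W φ` is `L(E ⊗ φ, s)` for a class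
function `φ` of the Galois group: `exp ∑ φ(Frob_v ^ n) (α_v ^ n + β_v ^ n) / (n q_v ^ (n s))` over `n ≥ 1`
and the primes `v` of `K` which do not divide `6` and the discriminant of `W` and are unramified in
`M`; the finitely many Euler factors left out have no zeros and poles for `Re s ≥ 1`, and for
`s = 1` their values are algebraic and Galois equivariant. `induced H ψ` is the character induced by the
linear character `ψ` of `H`, so that `twistedL M W (induced H ψ)` is `L(E/M^H ⊗ ψ, s)`.
`HasOrder g s₀ n`: the function `g`, given for `Re s > 3/2`, has a meromorphic continuation to `ℂ`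
(it is called `cont g`), of order `n` at `s₀`. `Equivariant σ g c g' c'`: the continuations of `g` and
`g'` have values `v` and `v'` at `s = 1`, and `σ (v / c) = v' / c'`.

Assumptions, known if `E` is automorphic over `M`: `Automorphic M W 1`: `L(E ⊗ χ, s)` has a
meromorphic continuation for `χ ∈ Irr`, and `L(E/M^H ⊗ ψ, s)` one which is holomorphic at `1` for the
linear characters `ψ` of the SOLVABLE subgroups `H` (solvable descent); for the other subgroups nothing
is known. `FunctionalEquations M W`: the functional equations of the `L(E ⊗ χ, s)` at `s = 1`, with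
root number `1` for symplectic characters.

Application: `K` is totally real, `M` a CM field, so that complex conjugation `c` is central in the
Galois group; `Z = {1, c}`, and `ω` one of its two characters. The irreducible characters `χ` with
central character `ω` on `Z` are those with `χ(c) = ε χ(1)`, `ε = ω(c) = ±1`. The fields `M ^ H` with
`Z ≤ H` are the (totally real) fields between `K` and `M⁺ = M ^ Z`, and `twistedL M W (induced Z ω)` is
`L(E / M⁺, s)` if `ε = 1` and the L-function of the quadratic twist of `E / M⁺` by `M / M⁺` if `ε = -1`.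
(With `Z = 1` the theorem covers all characters of totally real `M`.)

`Pool.Agent.Q7.GR.galL σ ψ` is the linear character `h ↦ σ (ψ h)`, `σ` an automorphism of `ℂ`.
`PeriodFamily G` is a family of numbers `per χ ≠ 0` with the products
`ind H ψ = ∏ per χ ^ ⟨χ|_H, ψ⟩` (for `Ind ψ`). Application: `per χ` is the Gauss sum of `det χ`, times a
fixed power of `2πi` to the power `χ(1)`.

The hypothesis in part (3) is then a theorem of Shimura (Duke Math. J. 45, 1978) on the Hilbert
modular form of `E` over the totally real fields `M ^ H`, `H` solvable: for the sign `ε` (at all real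
places) there is one period `u H` such that `L(E / M ^ H ⊗ ψ, 1)`, divided by the Gauss sum of `ψ`, a
power of `2πi` and this period, is an algebraic number with the expected Galois conjugates, for all
`ψ` with `ψ(c) = ε`. (The square root of the discriminant of `M ^ H` is put into `u H`.)

Let `ρ` be a representation of the Galois group over a number field `F'`, absolutely irreducible with
character `χ`, and `K = ℚ`. The motive `h¹(E) ⊗ ρ` has coefficients in `F'` and odd weight, `s₀ = 1`
is critical, and the components of its L-function in `F' ⊗ ℂ = ∏ ℂ` are the `L(E ⊗ (σ ∘ χ), s)`. As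
`χ(c) = ε χ(1)`, the period of Deligne is the Gauss sum of `det ρ` times a power of `2πi` times the
complex number `c^ε(E) ^ χ(1)`. So Deligne's conjecture is the last assertion in (3) with
`v = c^ε(E) ^ χ(1)`, and (3) is this conjecture up to one complex number `v`, independent of the
component.
-/

set_option autoImplicit false

open NumberField Pool.Agent.H541R3.ART Pool.Agent.Q7.GR Pool.Agent.Q7.DC Pool.Agent.Q7.SZ
  Pool.Agent.Q7.RL Pool.Agent.Q92.RT Pool.Agent.W353.NF Pool.Agent.H341R2.EC Topology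

/-- Let `ω` be a real linear character of the central subgroup `Z` of the Galois group, and suppose
that the order `r` of `L(E / M ^ Z ⊗ ω, s)` at `s = 1` is at most two. Then, for ALL irreducible
characters `χ` of the Galois group with the central character `ω` on `Z`:
(1) `L(E ⊗ χ, s)` is holomorphic at `s = 1`.
(2) If `L(E ⊗ χ, 1)` is not zero, there are solvable subgroups `H_i` containing `Z`, linear
characters `ψ_i` of them which are `ω` on `Z`, with `L(E / M ^ H_i ⊗ ψ_i, 1)` NOT ZERO, and integers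
`a_i` such that `L(E ⊗ (σ ∘ χ), s) = ∏ L(E / M ^ H_i ⊗ (σ ∘ ψ_i), s) ^ a_i` (near `s = 1`) for all
automorphisms `σ` of `ℂ`.
(3) Suppose that for the solvable `H` containing `Z` and the linear characters `ψ` of `H` which are
`ω` on `Z` the values `L(E / M ^ H ⊗ ψ, 1)` are Galois equivariant with the periods
`ind H ψ * u H`. Then there is a product `v` of powers of the numbers `u H` such that the values
`L(E ⊗ χ, 1)` are Galois equivariant with the periods `per χ * v`, that is
`σ (L(E ⊗ χ, 1) / (per χ * v)) = L(E ⊗ (σ ∘ χ), 1) / (per (σ ∘ χ) * v)` for all automorphisms `σ` of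
`ℂ`. -/
theorem Pool.Agent.Results.MP_cd171c_nt.CentralValuesOfTwists.result
    (K M : Type) [Field K] [NumberField K] [Field M] [NumberField M] [Algebra K M] [IsGalois K M]
    (E : WeierstrassCurve K) (_ : E.IsElliptic) (W : WeierstrassCurve (𝓞 K)) (_ : IsModel E W)
    (a : Automorphic M W 1) (Λ : FunctionalEquations M W)
    (Z : Subgroup (M ≃ₐ[K] M)) (hZ : Z ≤ Subgroup.center (M ≃ₐ[K] M)) (ω : Z →* ℂˣ)
    (hω : ω ^ 2 = 1) (r : ℤ) (hr2 : r ≤ 2) (hr : HasOrder (twistedL M W (induced Z ω)) 1 r) :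
    (∀ χ ∈ Irr (M ≃ₐ[K] M), (∀ z : Z, χ z = ((ω z : ℂˣ) : ℂ) * χ 1) →
      ∃ k : ℤ, 0 ≤ k ∧ HasOrder (twistedL M W χ) 1 k) ∧
    (∀ χ ∈ Irr (M ≃ₐ[K] M), (∀ z : Z, χ z = ((ω z : ℂˣ) : ℂ) * χ 1) →
      HasOrder (twistedL M W χ) 1 0 →
      ∃ l : List ((Σ H : Subgroup (M ≃ₐ[K] M), (H →* ℂˣ)) × ℤ),
        (∀ t ∈ l, Z ≤ t.1.1 ∧ Group.IsSolvable t.1.1 ∧
          (∀ (z : M ≃ₐ[K] M) (hz : z ∈ Z) (hz' : z ∈ t.1.1), t.1.2 ⟨z, hz'⟩ = ω ⟨z, hz⟩) ∧
          HasOrder (twistedL M W (induced t.1.1 t.1.2)) 1 0) ∧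
        ∀ σ : ℂ ≃+* ℂ, cont (twistedL M W fun g => σ (χ g)) =ᶠ[𝓝[≠] 1]
          fun s => (l.map fun t =>
            cont (twistedL M W (induced t.1.1 (galL σ t.1.2))) s ^ t.2).prod) ∧
    (∀ (P : PeriodFamily (M ≃ₐ[K] M)) (u : Subgroup (M ≃ₐ[K] M) → ℂˣ),
      (∀ (σ : ℂ ≃+* ℂ) (H : Subgroup (M ≃ₐ[K] M)), Z ≤ H → Group.IsSolvable H →
        ∀ ψ : H →* ℂˣ,
        (∀ (z : M ≃ₐ[K] M) (hz : z ∈ Z) (hz' : z ∈ H), ψ ⟨z, hz'⟩ = ω ⟨z, hz⟩) →
        Equivariant σ (twistedL M W (induced H ψ)) (P.ind H ψ * (u H : ℂ))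
          (twistedL M W (induced H (galL σ ψ))) (P.ind H (galL σ ψ) * (u H : ℂ))) →
      ∀ χ ∈ Irr (M ≃ₐ[K] M), (∀ z : Z, χ z = ((ω z : ℂˣ) : ℂ) * χ 1) →
        ∃ v ∈ Subgroup.closure {x : ℂˣ | ∃ H : Subgroup (M ≃ₐ[K] M), Z ≤ H ∧
          Group.IsSolvable H ∧ x = u H}, ∀ σ : ℂ ≃+* ℂ,
          Equivariant σ (twistedL M W χ) (P.per χ * (v : ℂ)) (twistedL M W fun g => σ (χ g))
            (P.per (fun g => σ (χ g)) * (v : ℂ))) := by
  have hr0 : meromorphicOrderAt ((TwistData.ofCurve a).Lin Z ω) 1 = (r : WithTop ℤ) :=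
    (ind_iff a Z ω r).1 hr
  have hsolZ : Group.IsSolvable Z := by
    have hcomm : ∀ x y : Z, x * y = y * x := fun x y =>
      Subtype.ext (Subgroup.mem_center_iff.1 (hZ x.2) y).symm
    exact Group.isSolvable_of_comm hcomm
  obtain ⟨k, hk⟩ := Int.eq_ofNat_of_zero_le (by
    have h1 := (TwistData.ofCurve a).hol Z ω hsolZ
    rw [hr0] at h1
    exact_mod_cast h1 : (0 : ℤ) ≤ r)
  have hrk : meromorphicOrderAt ((TwistData.ofCurve a).Lin Z ω) 1 = ((k : ℕ) : WithTop ℤ) := by
    rw [hr0, hk]
    rfl
  have hk2 : k ≤ 2 := by omega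
  refine ⟨?_, ?_, ?_⟩
  · intro χ hχ hC
    refine ⟨(TwistData.ofCurve a).ord χ,
      omega_nonneg' _ (Λ.model a) hZ hω hk2 hrk hχ ((hasC_iff hZ ω hχ).mpr hC), ?_⟩
    exact (irr_iff a hχ _).2 ((TwistData.ofCurve a).coe_ord hχ).symm
  · intro χ hχ hC h0
    have h1 : (TwistData.ofCurve a).ord χ = 0 := by
      have h2 := (irr_iff a hχ _).1 h0
      rw [← (TwistData.ofCurve a).coe_ord hχ] at h2
      exact_mod_cast h2
    obtain ⟨l, h2, h3⟩ := omega_expand' (TwistData.ofCurve a) (Λ.model a) hZ hω hk2 hrk hχ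
      ((hasC_iff hZ ω hχ).mpr hC) h1
    refine ⟨l, fun t ht => ?_, fun σ => L_expand_gal (TwistData.ofCurve a) hχ h3 σ⟩
    obtain ⟨i1, i2, i3, i4⟩ := h2 t ht
    exact ⟨i1, i2, i3, (ind_iff a _ _ 0).2 i4⟩
  · intro P u hu χ hχ hC
    obtain ⟨v, hv, h1⟩ := omega_values' (TwistData.ofCurve a) (Λ.model a)
      (P.periods (TwistData.ofCurve a)) hZ hω hk2 hrk u
      (fun σ H hH hs ψ hm => (equivariant_iff (ex_ind a _ _) (ex_ind a _ _)).1
        (hu σ H hH hs ψ hm)) χ hχ ((hasC_iff hZ ω hχ).mpr hC)
    exact ⟨v, hv, fun σ => (equivariant_iff (ex_irr a hχ) (ex_irr a (irr_gal σ hχ))).2 (h1 σ)⟩
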