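import Pool.Agent.Q5.DP.Fam

/-! Deligne's conjecture for a motive over families of number fields implies it over `ℚ`. -/

namespace Pool.Agent.Results.MP_cd171c_nt.FamiliesOfFields

open NumberField Pool.Agent.Q5.DP

theorem result (E : Type) [Field E] [NumberField E] (M : Mot E) (hM : IsCritical M) :
    -- (1) families closed under composita
    (∀ 𝓕 : Set (Subfield (AlgebraicClosure ℚ)), ExactS 𝓕 →
      (∀ F ∈ 𝓕, ∀ [NumberField F], Deligne M F) → Deligne M ℚ) ∧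
    -- (2) fields of given degrees
    (∀ D : Set ℕ, (∀ d ∈ D, ∀ n : ℕ, 0 < n → d * n ∈ D) → (∀ g : ℕ, (∀ d ∈ D, g ∣ d) → g = 1) →
      (∀ (F : Type) [Field F] [NumberField F], Module.finrank ℚ F ∈ D → Deligne M F) →
      ∀ (F : Type) [Field F] [NumberField F], Deligne M F) ∧
    -- (3) fields of degree divisible by `N`
    (∀ N : ℕ, (∀ (F : Type) [Field F] [NumberField F], N ∣ Module.finrank ℚ F → Deligne M F) →
      ∀ (F : Type) [Field F] [NumberField F] (ℓ c : (E →+* ℂ) → ℂ), IsValue M F ℓ →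
      IsPeriod M F c → ∃ e : E, e ≠ 0 ∧ ∀ τ, (ℓ τ / c τ) ^ (N / N.gcd (Module.finrank ℚ F)) = τ e) ∧
    -- (4) wide families
    ∀ 𝓕 : Set (Subfield (AlgebraicClosure ℚ)), WideS 𝓕 →
      (∀ F ∈ 𝓕, ∀ [NumberField F], Deligne M F) → ∃ m : ℕ, 0 < m ∧
      ∀ ℓ c : (E →+* ℂ) → ℂ, IsValue M ℚ ℓ → IsPeriod M ℚ c →
      ∃ e : E, e ≠ 0 ∧ ∀ τ, (ℓ τ / c τ) ^ m = τ e := by
  refine ⟨fun 𝓕 h h1 => deligne_exact hM h h1, fun D hD hD' h F _ _ =>
    deligne_sparse hM hD hD' h F, fun N h F _ _ ℓ c hℓ hc => ?_, fun 𝓕 h h1 => ?_⟩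
  · obtain ⟨e, he, h2⟩ := deligne_degree hM h F ℓ c hℓ hc
    refine ⟨e, he, fun τ => ?_⟩
    rw [← h2 τ, zpow_natCast]
  · obtain ⟨m, hm, h2⟩ := deligne_wide hM h h1
    refine ⟨m, hm, fun ℓ c hℓ hc => ?_⟩
    obtain ⟨e, he, h3⟩ := h2 ℓ c hℓ hc
    refine ⟨e, he, fun τ => ?_⟩
    rw [← h3 τ, zpow_natCast]

end Pool.Agent.Results.MP_cd171c_nt.FamiliesOfFields
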