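import Pool.Agent.Q223.LD.Law
import Pool.Agent.Q5.DP.Fam

/-! Deligne's conjecture for a motive over number fields with prescribed local degrees implies it
over all number fields. -/

set_option autoImplicit false

namespace Pool.Agent.Results.MP_cd171c_nt.LocalDegrees

open NumberField Pool.Agent.Q5.DP Pool.Agent.Q5.BR Pool.Agent.W353.NF Pool.Agent.W401.Cheb

theorem result (E : Type) [Field E] [NumberField E] (M : Mot E) (hM : IsCritical M)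
    (S : Finset ℕ) (hS : ∀ q ∈ S, q.Prime) :
    -- (1) the descent
    (∀ D : ℕ → Set ℕ, (∀ q ∈ S, ∀ d ∈ D q, ∀ n : ℕ, 0 < n → d * n ∈ D q) →
      (∀ q ∈ S, ∀ g : ℕ, (∀ d ∈ D q, g ∣ d) → g = 1) →
      (∀ (F : Type) [Field F] [NumberField F], (∀ q ∈ S, ∀ v : Ideal (𝓞 F), v.IsPrime →
        (q : 𝓞 F) ∈ v → v.ramificationIdx ℤ * v.inertiaDeg ℤ ∈ D q) → Deligne M F) →
      ∀ (F : Type) [Field F] [NumberField F], Deligne M F) ∧
    -- (2) the formula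
    ∀ N : ℕ, N ≠ 0 → ∃ (ι : Type) (_ : Fintype ι) (Y : ι → Ext ℚ) (n : ι → ℤ),
      (∀ j, ∃ p : ℕ, p.Prime ∧ ∀ q ∈ S, ∀ v : Ideal (𝓞 (Y j).F), v.IsPrime →
        (q : 𝓞 (Y j).F) ∈ v → ordCompl[p] N ∣ v.ramificationIdx ℤ * v.inertiaDeg ℤ) ∧
      (∀ g : AlgebraicClosure ℚ ≃+* AlgebraicClosure ℚ, ∑ j, n j * (fixed (Y j).F g : ℤ) = 1) ∧
      ∀ ℓ₀ c₀ : (E →+* ℂ) → ℂ, IsValue M ℚ ℓ₀ → IsPeriod M ℚ c₀ →
      ∀ ℓ c : ι → (E →+* ℂ) → ℂ, (∀ j, IsValue M (Y j).F (ℓ j)) →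
      (∀ j, IsPeriod M (Y j).F (c j)) →
      ∃ e : E, e ≠ 0 ∧ ∀ τ, (∏ j, (ℓ j τ / c j τ) ^ (n j)) * (ℓ₀ τ / c₀ τ)⁻¹ = τ e := by
  have hPF := period_formula hM
  refine ⟨fun D hD hD' h F _ _ => ?_, fun N hN => ?_⟩
  · refine (pow_one_iff hPF hM.pure hM.wt F trivial).1 ?_
    refine Pool.Agent.Q223.LD.loc_law (K := ℚ)
      (isLaw hPF hM.pure hM.wt (Module.finrank_self ℚ)) hS hD hD' ?_ F
    intro F' _ _ a hF'
    obtain rfl : a = DivisionRing.toRatAlgebra := Subsingleton.elim _ _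
    exact (pow_one_iff hPF hM.pure hM.wt F' trivial).2 (h F' hF')
  · obtain ⟨ι, hι, Y, n, hY, hrel⟩ := Pool.Agent.Q223.LD.loc_relation ℚ S hS hN
    have hrel' : ∀ g : AlgebraicClosure ℚ ≃+* AlgebraicClosure ℚ,
        ∑ j, n j * (fixed (Y j).F g : ℤ) = 1 := by
      intro g
      let σ : GK ℚ := AlgEquiv.ofRingEquiv (f := g) fun x => map_ratCast g x
      rw [← hrel σ]
      refine Finset.sum_congr rfl fun j _ => ?_
      rw [fixn_fixed (Module.finrank_self ℚ)]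
      rfl
    refine ⟨ι, hι, Y, n, hY, hrel', ?_⟩
    intro ℓ₀ c₀ hℓ₀ hc₀ ℓ c hℓ hc
    let Z : Option ι → Ext ℚ := fun o => o.elim (Ext.mk ℚ) Y
    have h1 := quot_rel (T := fun _ _ _ => True) hPF hM.pure hM.wt (ι := Option ι)
      (Z := fun o => (Z o).F) (fun _ => trivial) (n := fun o => o.elim (-1) n)
      (fun g => by
        rw [Fintype.sum_option]
        change (-1 : ℤ) * (fixed ℚ g : ℤ) + ∑ j, n j * (fixed (Y j).F g : ℤ) = 0
        have h2 : fixed ℚ g = 1 := by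
          unfold fixed
          rw [Nat.card_eq_one_iff_unique]
          refine ⟨⟨fun a b => Subtype.ext (Subsingleton.elim _ _)⟩,
            ⟨⟨algebraMap ℚ _, fun x => by rw [eq_ratCast, map_ratCast]⟩⟩⟩
        rw [hrel' g, h2]
        norm_num)
      (ℓ := fun o => o.elim ℓ₀ ℓ) (c := fun o => o.elim c₀ c)
      (by rintro (_ | j); exacts [hℓ₀, hℓ j]) (by rintro (_ | j); exacts [hc₀, hc j])
    obtain ⟨e, he, h3⟩ := h1
    refine ⟨e, he, fun τ => ?_⟩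
    rw [← h3 τ, Fintype.prod_option]
    change _ = (ℓ₀ τ / c₀ τ) ^ (-1 : ℤ) * ∏ j, (ℓ j τ / c j τ) ^ (n j)
    rw [zpow_neg_one, mul_comm]

end Pool.Agent.Results.MP_cd171c_nt.LocalDegrees
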