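import Mathlib
import Pool.Agent.Q7.RL.Dlg

/-!
# Deligne's conjecture for the vanishing central values of the Artin twists of an elliptic curve

`E` is an elliptic curve over a number field `K` (for example `K = ℚ`) with an integral equation `W`
(`IsModel E W`), and `M/K` is a Galois extension with group `M ≃ₐ[K] M`, ANY finite group.
`Irr G` is the set of irreducible complex characters of the finite group `G`.

The L-functions are real ones. `Pool.Agent.Q92.RT.twistedL M W φ` is `L(E ⊗ φ, s)` for a class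
function `φ` of the Galois group: `exp ∑ φ(Frob_v ^ n) (α_v ^ n + β_v ^ n) / (n q_v ^ (n s))` over `n ≥ 1`
and the primes `v` of `K` which do not divide `6` and the discriminant of `W` and are unramified in
`M`; the finitely many Euler factors left out have no zeros and poles for `Re s ≥ 1`.
`HasOrder g s₀ n`: the function `g`, given for `Re s > 3/2`, has a meromorphic continuation to `ℂ`, of
order `n` at `s₀`. `LOrder E s₀ n`: the same for the complete L-function of an elliptic curve.
`Orders E W s₀ n r`: the order of `L(E ⊗ χ, s)` at `s₀` is `n χ` and that of `L(E/F, s)` is `r F`, for all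
fields `F` between `K` and `M` (`⊤` is `M`). `induced H ψ` is the character induced by the linear
character `ψ` of `H`, so that `twistedL M W (induced H ψ)` is `L(E/M^H ⊗ ψ, s)`.

Assumptions, known if `E` is automorphic over `M`: `Automorphic M W 1`: `L(E ⊗ χ, s)` has a
meromorphic continuation for `χ ∈ Irr`, and `L(E/M^H ⊗ ψ, s)` one which is holomorphic at `1` for the
linear characters `ψ` of the SOLVABLE subgroups `H` (solvable descent); for the other subgroups nothing
is known. `FunctionalEquations M W`: the functional equations of the `L(E ⊗ χ, s)` at `s = 1`, with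
root number `1` for symplectic characters.

`Pool.Agent.Q7.GR.galL σ ψ` is the linear character `h ↦ σ (ψ h)`, `σ` an automorphism of `ℂ`. The
hypothesis `hsh` says that for the cyclic extensions `M / M ^ g` the nonvanishing of the central
value `L(E / M ^ g ⊗ ψ, 1)` depends only on the Galois orbit of `ψ`. This is known by the theorems
on the algebraicity of these values of Shimura (totally real fields) and Hida (all number fields),
as `E` is automorphic over `M ^ g`.

Let `ρ` be a representation of the Galois group over a number field `F'`, absolutely irreducible, and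
`K = ℚ`. The motive `h¹(E) ⊗ ρ` has coefficients in `F'` and odd weight, `s₀ = 1` is critical for it,
and the components of its L-function in `F' ⊗ ℂ = ∏ ℂ` are the `L(E ⊗ χ', s)`, where `χ'` runs over
the conjugates `σ ∘ χ` of the character `χ` of `ρ`.
-/

set_option autoImplicit false

open NumberField Pool.Agent.H541R3.ART Pool.Agent.H302R2 Pool.Agent.W446.AS Pool.Agent.Q7.GR
  Pool.Agent.Q7.SZ Pool.Agent.Q7.RL Pool.Agent.Q92.RT Pool.Agent.W353.NF Pool.Agent.H341R2.EC

/-- Let `n χ` be the order of `L(E ⊗ χ, s)` at `s = 1` and suppose that the order `r` of `L(E/M, s)` is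
at most five. Then
(1) `n (σ ∘ χ) = n χ` for ALL irreducible characters `χ` of the Galois group of `M/K` and all
automorphisms `σ` of `ℂ`. In particular, if one component of the L-function of the motive
`h¹(E) ⊗ ρ` vanishes at `s = 1`, all do; so the value in `F' ⊗ ℂ` at the critical point `1` is zero
and Deligne's conjecture holds for `h¹(E) ⊗ ρ` at `s₀ = 1`.
(2) For all fields `M ^ H` between `K` and `M` (with `H` solvable or not) and all linear characters
`ψ` of `H` the functions `L(E / M ^ H ⊗ ψ, s)` and `L(E / M ^ H ⊗ (σ ∘ ψ), s)` have the same order at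
`s = 1`.
(3) If `χ` has at least `m` different conjugates `σ ∘ χ`, then `m * (n χ) ^ 2 ≤ r ^ 2`. So
`L(E ⊗ χ, s)` is holomorphic and not zero at `s = 1` if the field of the values of `χ` has degree
greater than `r ^ 2` over `ℚ`. -/
theorem Pool.Agent.Results.MP_cd171c_nt.VanishingComponents.result
    (K M : Type) [Field K] [NumberField K] [Field M] [NumberField M] [Algebra K M] [IsGalois K M]
    (E : WeierstrassCurve K) (hE : E.IsElliptic) (W : WeierstrassCurve (𝓞 K)) (hW : IsModel E W)
    (a : Automorphic M W 1) (Λ : FunctionalEquations M W)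
    (hsh : ∀ (σ : ℂ ≃+* ℂ) (g : M ≃ₐ[K] M) (ψ : Subgroup.zpowers g →* ℂˣ),
      HasOrder (twistedL M W (induced (Subgroup.zpowers g) ψ)) 1 0 ↔
        HasOrder (twistedL M W (induced (Subgroup.zpowers g) (galL σ ψ))) 1 0) :
    ∃ (n : ((M ≃ₐ[K] M) → ℂ) → ℤ) (r : IntermediateField K M → ℤ), Orders E W 1 n r ∧
      (r ⊤ ≤ 5 →
        (∀ χ ∈ Irr (M ≃ₐ[K] M), ∀ σ : ℂ ≃+* ℂ, n (fun g => σ (χ g)) = n χ) ∧
        (∀ (H : Subgroup (M ≃ₐ[K] M)) (ψ : H →* ℂˣ) (σ : ℂ ≃+* ℂ), ∃ k : ℤ,
          HasOrder (twistedL M W (induced H ψ)) 1 k ∧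
            HasOrder (twistedL M W (induced H (galL σ ψ))) 1 k) ∧
        (∀ χ ∈ Irr (M ≃ₐ[K] M), ∀ S : Finset ((M ≃ₐ[K] M) → ℂ),
          (∀ η ∈ S, ∃ σ : ℂ ≃+* ℂ, η = fun g => σ (χ g)) →
          (S.card : ℤ) * n χ ^ 2 ≤ r ⊤ ^ 2)) := by
  classical
  obtain ⟨n, r, ho⟩ := exists_orders (M := M) hE hW (by simp) a
  refine ⟨n, r, ho, fun h5 => ?_⟩
  obtain ⟨k, hk⟩ := Int.eq_ofNat_of_zero_le (ho.nonneg hE hW (by simp) a)
  have hr0 : meromorphicOrderAt ((TwistData.ofCurve a).Lin ⊥ 1) 1 = ((k : ℕ) : WithTop ℤ) := by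
    have h1 := ho.bot hE hW (by simp) a
    rw [hk] at h1
    exact h1
  set A := (TwistData.ofCurve a).model with hA
  have hr : meromorphicOrderAt (A.Lin ⊥ 1) 1 = ((k : ℕ) : WithTop ℤ) := by
    rw [hA, model_Lin]
    exact hr0
  have hrat : ∀ (σ : ℂ ≃+* ℂ) (g : M ≃ₐ[K] M),
      σ ((theta A.ord : (M ≃ₐ[K] M) → ℂ) g) = (theta A.ord : (M ≃ₐ[K] M) → ℂ) g := by
    intro σ g
    refine (theta_gal (Λ.model a) (by omega) hr σ fun g ψ => ?_).2 g
    rw [model_Lin, model_Lin]
    exact ((ind_iff a _ ψ 0).symm.trans (hsh σ g ψ)).trans (ind_iff a _ (galL σ ψ) 0)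
  have hnA : ∀ χ ∈ Irr (M ≃ₐ[K] M), n χ = A.ord χ := by
    intro χ hχ
    rw [hA, model_ord _ hχ, ho.ord a hχ]
  refine ⟨?_, ?_, ?_⟩
  · intro χ hχ σ
    rw [hnA χ hχ, hnA _ (irr_gal σ hχ), ord_gal (hrat σ) hχ]
  · intro H ψ σ
    have : Fintype H := Fintype.ofFinite H
    obtain ⟨c, ha1, ha2⟩ := A.order_mult H ψ
    obtain ⟨b, hb1, hb2⟩ := A.order_mult H (galL σ ψ)
    rw [finsum_eq_sum_of_fintype] at ha2 hb2
    have h1 := congrArg σ ha2
    rw [map_sum, map_mul, map_intCast, map_natCast] at h1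
    have h2 : ∑ h : H, σ ((theta A.ord : (M ≃ₐ[K] M) → ℂ) h * (((ψ h)⁻¹ : ℂˣ) : ℂ)) =
        ∑ h : H, (theta A.ord : (M ≃ₐ[K] M) → ℂ) h * (((galL σ ψ h)⁻¹ : ℂˣ) : ℂ) := by
      refine Finset.sum_congr rfl fun h _ => ?_
      rw [map_mul, hrat, Units.val_inv_eq_inv_val, map_inv₀, Units.val_inv_eq_inv_val, galL_val]
    rw [h2, hb2] at h1
    have h3 : (Nat.card H : ℂ) ≠ 0 := card_ne
    have h4 := mul_right_cancel₀ h3 h1
    have h5 : b = c := by exact_mod_cast h4
    rw [hA, model_Lin] at ha1 hb1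
    rw [h5] at hb1
    exact ⟨c, (ind_iff a H ψ c).2 ha1, (ind_iff a H (galL σ ψ) c).2 hb1⟩
  · intro χ hχ S hS
    have hSI : S ⊆ irrF (M ≃ₐ[K] M) := by
      intro η hη
      obtain ⟨σ, rfl⟩ := hS η hη
      exact mem_irrF.mpr (irr_gal σ hχ)
    have h1 : ∑ η ∈ S, A.ord η ^ 2 = (S.card : ℤ) * n χ ^ 2 := by
      rw [Finset.sum_congr rfl (fun η hη => ?_), Finset.sum_const, nsmul_eq_mul]
      obtain ⟨σ, rfl⟩ := hS η hη
      rw [ord_gal (hrat σ) hχ, hnA χ hχ]
    rw [← h1, hk]
    exact (Finset.sum_le_sum_of_subset_of_nonneg hSI fun _ _ _ => sq_nonneg _).trans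
      (sum_sq_ord A hr)
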